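import Pool.Agent.V11333.Cone5
import Pool.Agent.V11333.PureSys

/-!
# One-sided bounds of smoothed Euler products at the central point of projective varieties

Let `X` be a smooth projective variety of dimension `d` over a number field `K` and `0 ≤ i ≤ 2d` (for the
motive `M = h^i(X)((i + 1)/2)`, `i` odd, the point `c = (i + 1)/2` is the centre `s = 0` of `L(s, M)`). For
the primes `v` in a set `S` of primes (in the main case `S` contains almost all primes) let
`α_{v,1}, …, α_{v,N}` be the eigenvalues of Frobenius on `H^i(X)`, and let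

`L(s) = ∏_{v ∈ S} ∏_j (1 - α_{v,j} q_v^{-s})⁻¹`, `Re s > i/2 + 1`,

the `L`-function of `H^i(X)` up to finitely many Euler factors. For the traces `t_k(v) = ∑_j α_{v,j}^k`
and the weights `w_ρ(u) = (1/2πi) ∫ exp(z - u z^{1/ρ}) dz/z`, `ρ > 1`, consider the smoothed logarithms of
the Euler product at the centre,

`S_ρ(Y) = ∑_{v, k ≥ 1} w_ρ(k log q_v / log Y) t_k(v) / (k q_v^{k c})`, `q_v^k ≤ exp ((log Y)^{ρ'})`

(`ρ' > ρ` is irrelevant, since `w_ρ` decays so fast). It is shown that for all real `ρ₀ ≥ 1`, `A > 0` and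
natural `r` the following are EQUIVALENT:

* `L(s)` has a holomorphic continuation WITHOUT ZEROS to the union of the half plane `Re s > i/2 + 1` and
  the sector `|arg (s - c)| < π/(2ρ₀)`, and `L(s) ∼ A (s - c)^r` for `s → c` in the smaller sectors;
* `L(s)` has a continuation along the REAL axis to all `s > c` (zeros allowed) with `L(s) ∼ A (s - c)^r`
  for real `s → c`, and `S_ρ(Y) + r log log Y` is bounded BELOW for `Y → ∞`, for all `ρ' > ρ > ρ₀`;
* `1/L(s)` has a continuation along the real axis to all `s > c` (poles of `L` allowed) with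
  `L(s)⁻¹ ∼ A⁻¹ (s - c)^{-r}` for real `s → c`, and `S_ρ(Y) + r log log Y` is bounded ABOVE for `Y → ∞`,
  for all `ρ' > ρ > ρ₀`;

and then `S_ρ(Y) + r log log Y` even converges, to `log A - r γ/ρ`. For `ρ₀ = 1` the sector is the half plane
`Re s > c`: one-sided bounds alone, together with the behaviour of `L` on the real axis, give the
holomorphic continuation to the right of the central line, the Riemann hypothesis there and the
asymptotic behaviour at `c` in angles. The earlier criteria assume the two-sided limits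
(MP_039d94_nt.CentralSectors), or treat one-sided bounds without the vertex, or assume a continuation to
the half plane. The new step is a Tauberian theorem for nonnegative functions in cones
(`Pool.Agent.V11333.Cone2`, with a theorem of Lindeloef type in `Cone1`).
-/

set_option autoImplicit false

namespace Pool.Agent.Results.MP_ec4e4b_nt.OneSidedLeadingTerm

open Filter Topology Set NumberField IsDedekindDomain

variable {K : Type} [Field K] [NumberField K] {n N : ℕ}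

/-- The norm `q_v`. -/
noncomputable def nrm (v : HeightOneSpectrum (𝓞 K)) : ℕ := Ideal.absNorm v.asIdeal

/-- The set `X` of homogeneous polynomials over `𝓞_K` in `n` variables gives a projective variety over
`K`.  For a field `κ` with `q` elements and a homomorphism `𝓞_K → κ` this is `(q - 1)` times the number
of the points of `X` with coordinates in `κ`: the number of the nonzero solutions of the equations. -/
noncomputable def cone (X : Set (MvPolynomial (Fin n) (𝓞 K))) {κ : Type} [Field κ]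
    (φ : 𝓞 K →+* κ) : ℕ :=
  Nat.card {u : Fin n → κ // u ≠ 0 ∧ ∀ f ∈ X, MvPolynomial.eval₂ φ u f = 0}

/-- `α_1, …, α_N` are the eigenvalues of the geometric Frobenius at the prime `v` of `K` on `H^i(X)`,
for a variety `X` of dimension `d`: there are finite multisets `β_k` of complex numbers of absolute
value `q_v^{k/2}`, `k = 0, …, 2d`, with `β_i = {α_1, …, α_N}`, such that for every finite extension
`κ` of the residue field of `v`, of degree `e`, the number of the points of `X` with coordinates in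
`κ` is `∑ (-1)^k ∑_{z ∈ β_k} z^e`.  By the theorem of Deligne such `β_k` exist at almost all primes
if `X` is smooth, with `N` the `i`-th Betti number of `X`; for `k ≤ 2d` they are unique. -/
def IsFrobenius (X : Set (MvPolynomial (Fin n) (𝓞 K))) (d i : ℕ)
    (v : HeightOneSpectrum (𝓞 K)) (α : Fin N → ℂ) : Prop :=
  ∃ β : ℕ → Multiset ℂ, β i = Finset.univ.val.map α ∧
    (∀ k, ∀ z ∈ β k, ‖z‖ = (nrm v : ℝ) ^ ((k : ℝ) / 2)) ∧
    ∀ (κ : Type) [Field κ] [Finite κ] (φ : 𝓞 K →+* κ) (e : ℕ), RingHom.ker φ = v.asIdeal →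
      Nat.card κ = nrm v ^ e →
      (cone X φ : ℂ) = ((nrm v : ℂ) ^ e - 1) *
          ∑ k ∈ Finset.range (2 * d + 1), (-1 : ℂ) ^ k * ((β k).map (fun z => z ^ e)).sum

variable {S : Set (HeightOneSpectrum (𝓞 K))}

/-- The Euler factor `∏_j (1 - α_{v,j} q_v^{-s})⁻¹`. -/
noncomputable def factor (α : S → Fin N → ℂ) (v : S) (s : ℂ) : ℂ :=
  ∏ j, (1 - α v j * (nrm v.1 : ℂ) ^ (-s))⁻¹

/-- The central point `c = (i + 1)/2`. -/
noncomputable def centre (i : ℕ) : ℝ := ((i : ℝ) + 1) / 2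

/-- The open sector `|arg (s - c)| < π/(2ρ)` at the central point `c = (i + 1)/2`. -/
def Sector (i : ℕ) (ρ : ℝ) : Set ℂ :=
  {s | s ≠ centre i ∧ |(s - centre i).arg| < Real.pi / (2 * ρ)}

/-- `L` has a holomorphic continuation `G` without zeros to the union of the sector
`|arg (s - c)| < π/(2ρ₀)` and the half plane `Re s > i/2 + 1`, and `G(s)/(s - c)^r → A` for `s → c` in the
sectors `|arg (s - c)| < π/(2ρ)`, `ρ > ρ₀`. -/
def Continues (i : ℕ) (α : S → Fin N → ℂ) (ρ₀ : ℝ) (r : ℕ) (A : ℝ) : Prop :=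
  ∃ G : ℂ → ℂ, (∀ s : ℂ, s ∈ Sector i ρ₀ ∨ (i : ℝ) / 2 + 1 < s.re →
      DifferentiableAt ℂ G s ∧ G s ≠ 0) ∧
    (∀ s : ℂ, (i : ℝ) / 2 + 1 < s.re → HasProd (fun v : S => factor α v s) (G s)) ∧
    ∀ ρ : ℝ, ρ₀ < ρ → Tendsto (fun s : ℂ => G s / (s - centre i) ^ r)
      (𝓝[Sector i ρ] (centre i : ℂ)) (𝓝 (A : ℂ))

/-- `L` has a continuation `F` which is analytic at all real `x > c`, with `F(x)/(x - c)^r → A` for real
`x → c`, `x > c`. -/
def RealContinues (i : ℕ) (α : S → Fin N → ℂ) (r : ℕ) (A : ℝ) : Prop :=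
  ∃ F : ℂ → ℂ, (∀ x : ℝ, centre i < x → AnalyticAt ℂ F x) ∧
    (∀ x : ℝ, (i : ℝ) / 2 + 1 < x → HasProd (fun v : S => factor α v x) (F x)) ∧
    Tendsto (fun x : ℝ => F x / ((x - centre i : ℝ) : ℂ) ^ r) (𝓝[>] centre i) (𝓝 (A : ℂ))

/-- `1/L` has a continuation `F` which is analytic at all real `x > c`, with `F(x) (x - c)^r → 1/A` for
real `x → c`, `x > c`. -/
def RealContinuesInv (i : ℕ) (α : S → Fin N → ℂ) (r : ℕ) (A : ℝ) : Prop :=
  ∃ F : ℂ → ℂ, (∀ x : ℝ, centre i < x → AnalyticAt ℂ F x) ∧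
    (∀ x : ℝ, (i : ℝ) / 2 + 1 < x → HasProd (fun v : S => factor α v x) (F x)⁻¹) ∧
    Tendsto (fun x : ℝ => F x * ((x - centre i : ℝ) : ℂ) ^ r) (𝓝[>] centre i) (𝓝 ((A : ℂ)⁻¹))

/-- The weight `w_ρ(u) = (1/2πi) ∫_{Re z = 1} exp(z - u z^{1/ρ}) dz/z`. -/
noncomputable def weight (ρ u : ℝ) : ℝ :=
  (2 * Real.pi)⁻¹ * ∫ t : ℝ, (Complex.exp ((1 + t * Complex.I) -
    u * (1 + t * Complex.I) ^ ((ρ⁻¹ : ℝ) : ℂ)) / (1 + t * Complex.I)).re

/-- `S_ρ(Y)`: the sum of `w_ρ(k log q_v / log Y) t_k(v) / (k q_v^{k (i+1)/2})` over the primes `v ∈ S` and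
the `k ≥ 1` (here `k = p.2 + 1`) with `q_v^k ≤ exp ((log Y)^{ρ'})`; `t_k(v) = ∑_j α_{v,j}^k` is the trace of
the `k`-th power of Frobenius, a real number. -/
noncomputable def mean (i : ℕ) (α : S → Fin N → ℂ) (ρ ρ' Y : ℝ) : ℝ :=
  ∑ᶠ (p : S × ℕ) (_ : (nrm p.1.1 : ℝ) ^ (p.2 + 1) ≤ Real.exp (Real.log Y ^ ρ')),
    weight ρ (((p.2 : ℝ) + 1) * Real.log (nrm p.1.1) / Real.log Y) *
      ((∑ j, α p.1 j ^ (p.2 + 1)).re /
        (((p.2 : ℝ) + 1) * ((nrm p.1.1 : ℝ) ^ centre i) ^ (p.2 + 1)))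

/-- `S_ρ(Y) + r log log Y` is bounded below for `Y → ∞`, for all `ρ' > ρ > ρ₀`. -/
def Lower (i : ℕ) (α : S → Fin N → ℂ) (ρ₀ : ℝ) (r : ℕ) : Prop :=
  ∀ ρ ρ' : ℝ, ρ₀ < ρ → ρ < ρ' → ∃ C : ℝ, ∀ᶠ Y : ℝ in atTop,
    -C ≤ mean i α ρ ρ' Y + r * Real.log (Real.log Y)

/-- `S_ρ(Y) + r log log Y` is bounded above for `Y → ∞`, for all `ρ' > ρ > ρ₀`. -/
def Upper (i : ℕ) (α : S → Fin N → ℂ) (ρ₀ : ℝ) (r : ℕ) : Prop :=
  ∀ ρ ρ' : ℝ, ρ₀ < ρ → ρ < ρ' → ∃ C : ℝ, ∀ᶠ Y : ℝ in atTop,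
    mean i α ρ ρ' Y + r * Real.log (Real.log Y) ≤ C

/-- `S_ρ(Y) + r log log Y → log A - r γ/ρ` for `Y → ∞`, for all `ρ' > ρ > ρ₀`. -/
def Limits (i : ℕ) (α : S → Fin N → ℂ) (ρ₀ : ℝ) (r : ℕ) (A : ℝ) : Prop :=
  ∀ ρ ρ' : ℝ, ρ₀ < ρ → ρ < ρ' →
    Tendsto (fun Y : ℝ => mean i α ρ ρ' Y + r * Real.log (Real.log Y)) atTop
      (𝓝 (Real.log A - r * Real.eulerMascheroniConstant / ρ))

/-- The eigenvalues of Frobenius are a pure system. -/
theorem pure {X : Set (MvPolynomial (Fin n) (𝓞 K))} {d i : ℕ} (hi : i ≤ 2 * d)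
    {α : S → Fin N → ℂ} (h : ∀ v, IsFrobenius X d i v.1 (α v)) :
    Pool.Agent.V11333.PR.Pure ((i : ℝ) / 2) α :=
  Pool.Agent.V11333.PS.pure_of_frobenius (X := X) (d := d) hi fun v => h v

/-- **Theorem.** Let `X` be a projective variety over a number field `K`, given by a set of homogeneous
polynomials over `𝓞_K`, `i ≤ 2d`, `S` a set of primes of `K` and `α_{v,j}` the eigenvalues of Frobenius on
`H^i(X)` at all `v ∈ S`. Let `r` be a natural number, `A > 0` and `ρ₀ ≥ 1`. The following are equivalent: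

(1) `L(s)` has a holomorphic continuation without zeros to the union of `Re s > i/2 + 1` and the sector
`|arg (s - c)| < π/(2ρ₀)`, with `L(s)/(s - c)^r → A` for `s → c` in the sectors `|arg (s - c)| < π/(2ρ)`,
`ρ > ρ₀`;

(2) `L(s)` is analytic along the real axis to the right of `c`, with `L(x)/(x - c)^r → A` for real `x → c`,
and `S_ρ(Y) + r log log Y` is bounded below for all `ρ' > ρ > ρ₀`;

(3) `1/L(s)` is analytic along the real axis to the right of `c`, with `L(x)⁻¹ (x - c)^r → 1/A` for real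
`x → c`, and `S_ρ(Y) + r log log Y` is bounded above for all `ρ' > ρ > ρ₀`;

(4) `S_ρ(Y) + r log log Y → log A - r γ/ρ` for all `ρ' > ρ > ρ₀`.

For `ρ₀ = 1` the sector is the half plane `Re s > c`. -/
theorem result (X : Set (MvPolynomial (Fin n) (𝓞 K))) (d i : ℕ) (hi : i ≤ 2 * d)
    (α : S → Fin N → ℂ) (h : ∀ v, IsFrobenius X d i v.1 (α v)) (r : ℕ) (A : ℝ) (hA : 0 < A)
    (ρ₀ : ℝ) (hρ₀ : 1 ≤ ρ₀) :
    (Continues i α ρ₀ r A ↔ RealContinues i α r A ∧ Lower i α ρ₀ r) ∧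
    (Continues i α ρ₀ r A ↔ RealContinuesInv i α r A ∧ Upper i α ρ₀ r) ∧
    (Continues i α ρ₀ r A ↔ Limits i α ρ₀ r A) ∧
    Sector i 1 = {s : ℂ | centre i < s.re} := by
  obtain ⟨h1, h2, h3⟩ := Pool.Agent.V11333.CP.main (pure hi h) (c := centre i)
    (σ := (i : ℝ) / 2 + 1) (by unfold centre; ring) rfl hρ₀ r hA
  have k1 : Limits i α ρ₀ r A ↔ Continues i α ρ₀ r A := h1
  have k2 : Limits i α ρ₀ r A ↔ RealContinues i α r A ∧ Lower i α ρ₀ r := h2
  have k3 : Limits i α ρ₀ r A ↔ RealContinuesInv i α r A ∧ Upper i α ρ₀ r := h3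
  refine ⟨k1.symm.trans k2, k1.symm.trans k3, k1.symm, ?_⟩
  ext s
  have h4 := Pool.Agent.V11333.CP.sector_shift (centre i) 1 s
  have h5 : s ∈ Sector i 1 ↔ s - centre i ∈ Pool.Agent.TH942.SL.Sect 1 := h4
  rw [h5, Pool.Agent.TH942.ES.sect_one]
  simp only [Set.mem_ofPred_eq, Complex.sub_re, Complex.ofReal_re, sub_pos]

end Pool.Agent.Results.MP_ec4e4b_nt.OneSidedLeadingTerm
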