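import Pool.Agent.V1194.SO.Pol

/-!
# The order at the centre of the `L`-functions of polarized motives from sectorial means

Let `M` be a polarized Chow motive of rank `N` over a number field `K`, so that `M ≅ M^∨(1)` is of weight `-1`
and `s = 0` is the centre of `L(s, M)`. Let `S` be a set of finite places of `K` (in the main case the places of
good reduction; the other Euler factors are holomorphic without zeros for `Re s ≥ 0` if the local weights are
at most `-1`). For `v ∈ S` the polynomial `P_v(T) = det(1 - Frob_v T | M_ℓ) = ∏_j (1 - α_{v,j} T)` has rational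
coefficients, with `α_{v,j}` of absolute value `q_v^{-1/2}` (Deligne), and

`L(s) = ∏_{v ∈ S} P_v(q_v^{-s})⁻¹`, `Re s > 1/2`.

Only these properties of `M` are used. With the weights `w_ρ(u) = (1/2πi) ∫ exp(z - u z^{1/ρ}) dz/z`, `ρ > 1`,
consider the means of the logarithms of the rational numbers `P_v(1)`

`S_ρ(Y) = ∑_{q_v ≤ exp ((log Y)^{ρ'})} w_ρ(log q_v / log Y) log |P_v(1)|`

(they do not depend on `ρ' > ρ` up to a bounded error). It is shown for all `ρ' > ρ > 1`: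

1. `L(s)` has a holomorphic continuation without zeros to the sector `|arg s| < π/(2ρ)` if and only if
   `S_ρ(Y) = O(exp(ε (log Y)^ρ))` for every `ε > 0` (no continuation is supposed).
2. If `S_ρ(Y) = κ log log Y + O(1)` with a real number `κ`, then `L(s)` has such a continuation, and for every
   analytic continuation `H` of `L(s)` along the real axis to all real `s > 0`, `H` has no zeros there, `|H(s)|`
   is of the exact order `s^κ` for `s → 0`, and if `H` is meromorphic at `0`, then `κ` is the order of `H` at `0`.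
3. If `L(s)` has a continuation `G` to `Re s > 0` and to a neighbourhood of `0`, then for every natural number
   `r`: the order of `G` at `0` is `r` and `G` has no zeros in the sector if and only if
   `S_ρ(Y) = r log log Y + O(1)`; the order is `r` and `G` has no zeros with `Re s > 0` if and only if this holds
   for all `ρ' > ρ > 1`; and the exponential growth of `S_ρ(Y)` in the scale `exp(θ (log Y)^ρ)` is given exactly
   by the maximum `θ` of `Re s^ρ` over the zeros `s` of `G` in the sector.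

With `r = dim H^1_f(K, M_p) - dim H^0(K, M_p)`, (3) is a scale of numerical forms of the order of vanishing
formula for `M`, each equivalent to the formula together with the absence of zeros in one sector.
-/

set_option autoImplicit false

namespace Pool.Agent.Results.MP_ec4e4b_nt.SectorialMeans

open Filter Topology Set NumberField IsDedekindDomain

variable {K : Type} [Field K] [NumberField K] {N : ℕ} {S : Set (HeightOneSpectrum (𝓞 K))}

/-- The number `q_v` of elements of the residue field. -/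
noncomputable def nrm (v : HeightOneSpectrum (𝓞 K)) : ℕ := Ideal.absNorm v.asIdeal

/-- The polynomials `P_v`, `v ∈ S`, are `∏_j (1 - α_{v,j} T)` with `N` complex numbers `α_{v,j}` of absolute
value `q_v^{-1/2}`. -/
def IsPure (N : ℕ) (P : S → Polynomial ℚ) : Prop :=
  ∀ v : S, ∃ α : Fin N → ℂ, (∀ j, ‖α j‖ = (√(nrm v.1 : ℝ))⁻¹) ∧
    ∀ z : ℂ, Polynomial.aeval z (P v) = ∏ j, (1 - α j * z)

/-- The Euler factor `P_v(q_v^{-s})⁻¹`. -/
noncomputable def factor (P : S → Polynomial ℚ) (v : S) (s : ℂ) : ℂ :=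
  (Polynomial.aeval ((nrm v.1 : ℂ) ^ (-s)) (P v))⁻¹

/-- The open sector `|arg s| < π/(2ρ)` with vertex `0`. -/
def Sector (ρ : ℝ) : Set ℂ := {s | s ≠ 0 ∧ |s.arg| < Real.pi / (2 * ρ)}

/-- The weight `w_ρ(u) = (1/2πi) ∫_{Re z = 1} exp(z - u z^{1/ρ}) dz/z`. -/
noncomputable def weight (ρ u : ℝ) : ℝ :=
  (2 * Real.pi)⁻¹ * ∫ t : ℝ, (Complex.exp ((1 + t * Complex.I) -
    u * (1 + t * Complex.I) ^ ((ρ⁻¹ : ℝ) : ℂ)) / (1 + t * Complex.I)).re

/-- The mean `S_ρ(Y)`, the sum of `w_ρ(log q_v / log Y) log |P_v(1)|` over the `v ∈ S` with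
`q_v ≤ exp ((log Y)^{ρ'})`. -/
noncomputable def mean (P : S → Polynomial ℚ) (ρ ρ' Y : ℝ) : ℝ :=
  ∑ᶠ (v : S) (_ : (nrm v.1 : ℝ) ≤ Real.exp (Real.log Y ^ ρ')),
    weight ρ (Real.log (nrm v.1) / Real.log Y) * Real.log |(((P v).eval 1 : ℚ) : ℝ)|

/-- `S_ρ(Y) = κ log log Y + O(1)`. -/
def Law (P : S → Polynomial ℚ) (ρ ρ' κ : ℝ) : Prop :=
  ∃ C : ℝ, ∀ᶠ Y : ℝ in atTop, |mean P ρ ρ' Y - κ * Real.log (Real.log Y)| ≤ C

/-- `S_ρ(Y) = O(exp((θ + ε) (log Y)^ρ))` for every `ε > 0`. -/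
def Growth (P : S → Polynomial ℚ) (ρ ρ' θ : ℝ) : Prop :=
  ∀ ε : ℝ, 0 < ε → ∃ C : ℝ, ∀ᶠ Y : ℝ in atTop,
    |mean P ρ ρ' Y| ≤ C * Real.exp ((θ + ε) * Real.log Y ^ ρ)

/-- `L(s)` has a holomorphic continuation without zeros to the sector `|arg s| < π/(2ρ)`: there is a
holomorphic function without zeros in the sector, equal to the Euler product for `Re s > 1/2`. -/
def ZeroFree (P : S → Polynomial ℚ) (ρ : ℝ) : Prop :=
  ∃ G : ℂ → ℂ, (∀ s ∈ Sector ρ, DifferentiableAt ℂ G s ∧ G s ≠ 0) ∧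
    ∀ s ∈ Sector ρ, 1 / 2 < s.re → HasProd (fun v : S => factor P v s) (G s)

/-- `G` is a continuation of `L(s)` to `Re s > 0` and to a neighbourhood of `0`. -/
def IsContinuation (P : S → Polynomial ℚ) (G : ℂ → ℂ) : Prop :=
  (∀ s : ℂ, 0 < s.re → DifferentiableAt ℂ G s) ∧ AnalyticAt ℂ G 0 ∧
    ∀ s : ℂ, 1 / 2 < s.re → HasProd (fun v : S => factor P v s) (G s)

/-- `H` is an analytic continuation of `L(s)` along the real axis: it is analytic at all real `x > 0`
and equal to the Euler product at the real `x > 1/2`. -/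
def IsRealContinuation (P : S → Polynomial ℚ) (H : ℂ → ℂ) : Prop :=
  (∀ x : ℝ, 0 < x → AnalyticAt ℂ H x) ∧
    ∀ x : ℝ, 1 / 2 < x → HasProd (fun v : S => factor P v x) (H x)

/-- `|H(s)|` is of the exact order `s^κ` for real `s > 0`, `s → 0`. -/
def RadialOrder (H : ℂ → ℂ) (κ : ℝ) : Prop :=
  ∃ A B : ℝ, 0 < A ∧ ∀ᶠ x : ℝ in 𝓝[>] 0, A * x ^ κ ≤ ‖H x‖ ∧ ‖H x‖ ≤ B * x ^ κ

open Pool.Agent.V1194 in
/-- **Theorem.** Let `P_v`, `v ∈ S`, be polynomials with rational coefficients of the form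
`∏_{j ≤ N} (1 - α_{v,j} T)`, `|α_{v,j}| = q_v^{-1/2}`, and `L(s) = ∏_{v ∈ S} P_v(q_v^{-s})⁻¹`. Let `ρ' > ρ > 1`.

(1) `L(s)` has a holomorphic continuation without zeros to the sector `|arg s| < π/(2ρ)` if and only if
`S_ρ(Y) = O(exp(ε (log Y)^ρ))` for every `ε > 0`.
(2) If `S_ρ(Y) = κ log log Y + O(1)`, `κ` real, then `L(s)` has such a continuation, and for every analytic
continuation `H` of `L(s)` along the real axis to all `s > 0`: `H(s) ≠ 0` for real `s > 0`, `|H(s)|` is of the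
exact order `s^κ`, and if `H` is meromorphic at `0`, then its order at `0` is `κ`.
(3) Let `G` be a continuation of `L(s)` to `Re s > 0` and to a neighbourhood of `0`. For natural `r`:
`ord_{s=0} G = r` and `G` has no zeros in the sector if and only if `S_ρ(Y) = r log log Y + O(1)`;
`ord_{s=0} G = r` and `G` has no zeros with `Re s > 0` if and only if this holds for all `ρ' > ρ > 1`; and for
`θ ≥ 0` all zeros `s` of `G` in the sector satisfy `Re s^ρ ≤ θ` if and only if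
`S_ρ(Y) = O(exp((θ + ε)(log Y)^ρ))` for every `ε > 0`. -/
theorem result (P : S → Polynomial ℚ) (hP : IsPure N P) :
    (∀ ρ ρ' : ℝ, 1 < ρ → ρ < ρ' → (ZeroFree P ρ ↔ Growth P ρ ρ' 0)) ∧
    (∀ ρ ρ' κ : ℝ, 1 < ρ → ρ < ρ' → Law P ρ ρ' κ → ZeroFree P ρ ∧
      ∀ H : ℂ → ℂ, IsRealContinuation P H →
        (∀ x : ℝ, 0 < x → H x ≠ 0) ∧ RadialOrder H κ ∧
        ∀ m : ℤ, MeromorphicAt H 0 → meromorphicOrderAt H 0 = m → κ = m) ∧
    (∀ G : ℂ → ℂ, IsContinuation P G →
      (∀ (ρ ρ' : ℝ) (r : ℕ), 1 < ρ → ρ < ρ' →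
        ((analyticOrderAt G 0 = r ∧ ∀ s ∈ Sector ρ, G s ≠ 0) ↔ Law P ρ ρ' r)) ∧
      (∀ r : ℕ, (analyticOrderAt G 0 = r ∧ ∀ s : ℂ, 0 < s.re → G s ≠ 0) ↔
        ∀ ρ ρ' : ℝ, 1 < ρ → ρ < ρ' → Law P ρ ρ' r) ∧
      (∀ ρ ρ' θ : ℝ, 1 < ρ → ρ < ρ' → 0 ≤ θ →
        ((∀ s ∈ Sector ρ, G s = 0 → (s ^ (ρ : ℂ)).re ≤ θ) ↔ Growth P ρ ρ' θ))) := by
  choose α h1 h2 using hP
  have hp : SO.Pur α := ⟨fun v j => by
      rw [h1 v j]
      exact inv_mul_cancel₀ (SO.sqrt_pos v).ne', fun v z => by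
      rw [← h2, ← h2]
      exact SO.conj_rat _ _⟩
  have E := hp.sys
  have hF : SO.IsProd (fun v : S => Pool.Agent.H921R2.TatePole.nm v.1) (SO.nor α) 0 (factor P) := by
    have e : factor P = fun v s =>
        ∏ j, (1 - α v j * (Pool.Agent.H921R2.TatePole.nm v.1 : ℂ) ^ (-s))⁻¹ := by
      funext v s
      unfold factor
      rw [h2, Finset.prod_inv_distrib]
      rfl
    rw [e]
    exact hp.isProd
  have hm : ∀ ρ ρ' Y : ℝ, mean P ρ ρ' Y = Pool.Agent.TH942.ES.SrE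
      (fun v : S => Pool.Agent.H921R2.TatePole.nm v.1) (SO.nor α) ρ ρ' Y := by
    intro ρ ρ' Y
    unfold mean Pool.Agent.TH942.ES.SrE
    refine finsum_congr fun v => finsum_congr fun _ => ?_
    rw [hp.cv_eq]
    have e1 : ∏ j, (1 - α v j) = (((P v).eval 1 : ℚ) : ℂ) := by
      have e2 := h2 v 1
      simp only [mul_one] at e2
      rw [← e2, Polynomial.aeval_def, Polynomial.eval₂_at_one]
      simp
    rw [e1, ← Complex.ofReal_ratCast, Complex.norm_real, Real.norm_eq_abs]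
    rfl
  have hL : ∀ ρ ρ' κ : ℝ, Law P ρ ρ' κ ↔ SO.LawE
      (fun v : S => Pool.Agent.H921R2.TatePole.nm v.1) (SO.nor α) ρ ρ' κ := by
    intro ρ ρ' κ
    unfold Law SO.LawE
    simp only [hm]
  have hG : ∀ ρ ρ' θ : ℝ, Growth P ρ ρ' θ ↔ SO.GrowthE
      (fun v : S => Pool.Agent.H921R2.TatePole.nm v.1) (SO.nor α) ρ ρ' θ := by
    intro ρ ρ' θ
    unfold Growth SO.GrowthE
    simp only [hm]
  have hS : ∀ ρ : ℝ, Sector ρ = SO.Sector 0 ρ := by
    intro ρ
    unfold Sector SO.Sector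
    simp only [Complex.ofReal_zero, sub_zero]
  have hz : ∀ ρ : ℝ, ZeroFree P ρ ↔ SO.ZeroFree 0 (factor P) ρ := by
    intro ρ
    unfold ZeroFree SO.ZeroFree
    rw [hS]
    simp only [zero_add]
  have hc : ∀ G : ℂ → ℂ, IsContinuation P G → SO.IsCont 0 (factor P) G := by
    rintro G ⟨h3, h4, h5⟩
    exact ⟨h3, by rwa [Complex.ofReal_zero], by simpa only [zero_add] using h5⟩
  have hr : ∀ H : ℂ → ℂ, IsRealContinuation P H → SO.IsRealCont 0 (factor P) H := by
    rintro H ⟨h3, h4⟩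
    exact ⟨h3, by simpa only [zero_add] using h4⟩
  refine ⟨fun ρ ρ' hρ hρ' => ?_, fun ρ ρ' κ hρ hρ' hκ => ?_, fun G hGc =>
    ⟨fun ρ ρ' r hρ hρ' => ?_, fun r => ?_, fun ρ ρ' θ hρ hρ' hθ => ?_⟩⟩
  · rw [hG, hz]
    exact SO.gen_zero E hF hρ hρ'
  · obtain ⟨h3, h4⟩ := SO.gen_radial E hF hρ hρ' ((hL ρ ρ' κ).1 hκ)
    refine ⟨(hz ρ).2 h3, fun H hH => ?_⟩
    obtain ⟨h5, h6, h7⟩ := h4 H (hr H hH)
    refine ⟨h5, ?_, ?_⟩
    · unfold SO.Radial at h6
      unfold RadialOrder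
      simpa only [sub_zero] using h6
    · simpa only [Complex.ofReal_zero] using h7
  · have h3 := SO.gen_law E hF (hc G hGc) hρ hρ' r
    rw [hL, ← h3, hS, Complex.ofReal_zero]
  · have h3 := SO.gen_all E hF (hc G hGc) r
    simp only [hL]
    rw [← h3, Complex.ofReal_zero]
  · have h3 := SO.gen_level E hF (hc G hGc) hρ hρ' hθ
    rw [hG, ← h3, hS]
    simp only [Complex.ofReal_zero, sub_zero]

end Pool.Agent.Results.MP_ec4e4b_nt.SectorialMeans
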