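import Pool.Agent.V11329.TW.Law
import Pool.Agent.V11329.TW.Sel

/-!
# The order of vanishing formula for abelian varieties of dimension `2 * 3 ^ (k - 1)` over `ℚ`

`K = ℚ(ω)`, `E : y² + y = x³`, `k ≥ 2`.  A member of the family (`ThreePartTwistsProportion` of problem
`MP_dfae13_nt`, helper291) is given by primes `π 1, …, π m` of `ℤ[ω]`, congruent to `1` modulo `3`, whose
norms are distinct prime numbers congruent to `1` modulo `3 ^ (k + 1)`, and by characters `lam j` of exact
order `3 ^ k` modulo `π j`.  The characters `lam j ^ 3 ^ (k - 1)` are the powers with exponents `e j` of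
the cubic residue symbols, and `∏ π j ^ e j` must not be `1` modulo `9`.  `A` is the abelian variety over
`K`, of dimension `3 ^ (k - 1)`, that is the twist of `E ⊗ ℤ[ζ]`, `ζ` of order `3 ^ k`, by `∏ lam j`, and
`B` is its restriction of scalars to `ℚ`, of dimension `2 * 3 ^ (k - 1)`.

For the polarized motive `M = h¹(B)(1)` over `ℚ` we have `L(s, M) = L(B, s + 1)`, `M_3 = V_3 B`, and by the
lemma of Shapiro `H⁰(ℚ, V_3 B) = H⁰(K, V_3 A)` and `H¹_f(ℚ, V_3 B) = H¹_f(K, V_3 A)`.

`Formula`: `L(B, s)` is an entire function that is not zero at `s = 1`, and `H⁰(K, V_3 A)` and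
`H¹_f(K, V_3 A)` are zero; so the formula of the problem holds for `M` and `p = 3`.

The members are ordered by `N(π 1 ⋯ π m)`.  There are `≍ X (log log X) ^ (m - 1) / log X` of them up to
`X`; the proportion of the connected ones tends to `∏_{i < m / 2} (1 - 3 ^ (-2 i - 1))`; and `Formula`
holds for all the connected members, hence for at least this proportion, which is larger than `0.639`, of
the members.  The same holds if the `π j` are taken from any dense set.

`V 3 B` (`Pool.Agent.V11329.JS.V`) is the rational Tate module of the abelian group `B`: its elements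
are the sequences `x₀, x₁, …` of elements of 3-power order of `B` with `3 x_{n+1} = x_n`.
-/

set_option autoImplicit false

open scoped Classical
open Filter Topology Pool.Agent.Y715.T.St

namespace Pool.Agent.Results.MP_ec4e4b_nt.ThreePowerOrderFormula

open Pool.Agent.Results.MP_dfae13_nt.ThreePartTwistsProportion (Datum InFamily IsConnected count
  IsDense)
open Pool.Agent.V11329.JS (V)

/-- `H⁰(K, V_3 A) = 0`: the elements of `V_3 A` that are fixed by the Galois group of `K` are zero. -/
def NoInvariants {k : ℕ} {i₀ : QBar} (a : GalK i₀ → ZMod (3 ^ k)) : Prop :=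
  ∀ y : V 3 (ZMod (3 ^ k) → Pts QBar), (∀ n, y.seq n ∈ pointsK a) → ∀ n, y.seq n = 0

/-- The Selmer condition for a cocycle `c` with values in `V_3 A`: all its coordinates `σ ↦ c(σ)_n` are
locally constant cocycles with values in `A` that become coboundaries over the completion of `K` at each
place.  (The points of `A` over the algebraic closure are certain functions from `ℤ / 3 ^ k` to the points
of `E`, see `InA`.) -/
def IsSelmer {k : ℕ} {i₀ : QBar} (a : GalK i₀ → ZMod (3 ^ k))
    (c : GalK i₀ → V 3 (ZMod (3 ^ k) → Pts QBar)) : Prop :=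
  ∀ n, IsCocycle a (fun σ => (c σ).seq n) ∧ LocallyTrivial a (fun σ => (c σ).seq n)

/-- The coboundaries `σ ↦ σ y - y` of the elements `y` of `V_3 A`. -/
def IsCob {k : ℕ} {i₀ : QBar} (a : GalK i₀ → ZMod (3 ^ k))
    (c : GalK i₀ → V 3 (ZMod (3 ^ k) → Pts QBar)) : Prop :=
  ∃ y : V 3 (ZMod (3 ^ k) → Pts QBar), (∀ n, InA k i₀ (y.seq n)) ∧
    ∀ σ n, (c σ).seq n = twist (homK σ) (a σ) (y.seq n) - y.seq n

/-- The `L`-functions of the Hecke characters `ψ χ ^ t`, `t` prime to `3`, are entire, so is their product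
`L(B, s)`, which is not zero at `s = 1`; and `H⁰(K, V_3 A)` and `H¹_f(K, V_3 A)` are zero. -/
def Formula (k : ℕ) {m : ℕ} (x : Datum m) : Prop :=
  (∃ F : ℕ → ℂ → ℂ, (∀ t, ¬ 3 ∣ t → IsLFunction x.2 t (F t)) ∧ Differentiable ℂ (LA k F) ∧
    LA k F 1 ≠ 0) ∧
  ∀ ζ : ℂ, ζ ^ 3 ^ (k - 1) = omega → ∀ (i₀ : QBar), i₀ ^ 2 + i₀ + 1 = 0 →
    ∀ a : GalK i₀ → ZMod (3 ^ k), Corresponds ζ x.2 a → NoInvariants a ∧
      ∀ c : GalK i₀ → V 3 (ZMod (3 ^ k) → Pts QBar), IsSelmer a c → IsCob a c

lemma differentiable_LA (k : ℕ) {F : ℕ → ℂ → ℂ} (h : ∀ t, ¬ 3 ∣ t → Differentiable ℂ (F t)) :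
    Differentiable ℂ (LA k F) := by
  have h1 : ∀ t ∈ (Finset.range (3 ^ k)).filter (fun t => t % 3 = 1), Differentiable ℂ
      (fun s => F t s * (starRingEnd ℂ) (F t ((starRingEnd ℂ) s))) := by
    intro t ht
    have h3 : ¬ 3 ∣ t := by
      rw [Finset.mem_filter] at ht
      omega
    intro s
    have h4 : DifferentiableAt ℂ (F t) ((starRingEnd ℂ) s) := h t h3 _
    have h5 := h4.conj_conj
    rw [RCLike.conj_conj] at h5
    exact (h t h3 s).mul h5
  have e : LA k F = fun s => ∏ t ∈ (Finset.range (3 ^ k)).filter (fun t => t % 3 = 1),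
      F t s * (starRingEnd ℂ) (F t ((starRingEnd ℂ) s)) := rfl
  rw [e]
  exact Differentiable.fun_finsetProd h1

lemma formula_of {k m : ℕ} {x : Datum m}
    (h : Pool.Agent.Results.MP_dfae13_nt.ThreePartTwistsProportion.BSDThree k x) :
    Formula k x := by
  constructor
  · obtain ⟨ζ, hζ⟩ := IsAlgClosed.exists_pow_nat_eq omega (n := 3 ^ (k - 1))
      (pow_pos (by norm_num) _)
    obtain ⟨⟨F, hF1, hF2, u, hu, hF3⟩, -⟩ := h ζ hζ
    refine ⟨F, hF1, differentiable_LA k fun t ht => (hF1 t ht).1, ?_⟩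
    rw [hF3]
    have hΩ : (Omega : ℂ) ≠ 0 := by
      have h7 : Pool.Agent.Y715.T.Om.Om = Omega := rfl
      have h8 := Pool.Agent.Y715.T.Om.Om_pos
      rw [h7] at h8
      exact_mod_cast h8.ne'
    exact mul_ne_zero (mul_ne_zero (pow_ne_zero _ hΩ) (pow_ne_zero _ three_ne_zero)) hu.1
  · intro ζ hζ i₀ hi a ha
    exact ⟨fun y hy n => Pool.Agent.V11329.TW.no_inv h hζ hi ha y hy n,
      fun c hc => Pool.Agent.V11329.TW.sel_cob h hζ hi ha c hc⟩

/-- **The number of the members, the proportion of the connected ones, and the order of vanishing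
formula for them.** -/
theorem result (k m : ℕ) (hk : 2 ≤ k) (hm : 1 ≤ m) :
    -- the connected members
    (∀ x : Datum m, InFamily Set.univ k x → IsConnected k x → Formula k x) ∧
    -- the set of all primes is dense
    IsDense k Set.univ ∧
    ∀ S : Set Eis, IsDense k S →
      -- the number of the members
      (∃ (c C : ℝ) (X₀ : ℕ), 0 < c ∧ 0 < C ∧ ∀ X : ℕ, X₀ ≤ X →
        c * (X * Real.log (Real.log X) ^ (m - 1) / Real.log X) ≤
          (count (m := m) (InFamily S k) X : ℝ) ∧
        (count (m := m) (InFamily S k) X : ℝ) ≤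
          C * (X * Real.log (Real.log X) ^ (m - 1) / Real.log X)) ∧
      -- the proportion of the connected ones
      Tendsto (fun X : ℕ => (count (m := m) (fun x => InFamily S k x ∧ IsConnected k x) X : ℝ) /
        (count (m := m) (InFamily S k) X : ℝ)) atTop
        (𝓝 (∏ i ∈ Finset.range (m / 2), (1 - 1 / 3 ^ (2 * i + 1) : ℝ))) ∧
      -- the proportion of the members with `Formula` is at least this
      ∀ ε : ℝ, 0 < ε → ∃ X₀ : ℕ, ∀ X : ℕ, X₀ ≤ X →
        (∏ i ∈ Finset.range (m / 2), (1 - 1 / 3 ^ (2 * i + 1) : ℝ) - ε) *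
          (count (m := m) (InFamily S k) X : ℝ) ≤
          (count (m := m) (fun x => InFamily S k x ∧ Formula k x) X : ℝ) :=
  Pool.Agent.V11329.TW.law k m hk hm (Formula k) fun x h1 h2 => formula_of
    ((Pool.Agent.Results.MP_dfae13_nt.ThreePartTwistsProportion.result k m hk hm).1 x h1 h2)

end Pool.Agent.Results.MP_ec4e4b_nt.ThreePowerOrderFormula
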